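import Pool.Agent.U854.CQ.Law
import Pool.Agent.U854.CL.Tor

/-!
Torus coordinates `ω δ^o (1 + δ^h y)`: one or two of them are multiplicatively independent if the first
order terms are.
-/

set_option autoImplicit false

namespace Pool.Agent.U854.DM

variable {V : ValuationSubring ℂ} {p : ℕ}

theorem tor_one (hp : p.Prime) (hpV : V.valuation (p : ℂ) < 1) {δ : ℂ} (hδ0 : δ ≠ 0)
    (hδ : V.valuation δ < 1) {h : ℕ} (hν : V.valuation (δ ^ h) ^ (p - 1) < V.valuation (p : ℂ))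
    {y : ℂ} (hy : V.valuation y ≤ 1) {o : ℤ} (ho : o ≠ 0 ∨ V.valuation y = 1) (hh : 0 < h)
    {c : ℤ} {N : ℕ} (hN : 0 < N) (hrel : ((δ ^ o * (1 + δ ^ h * y)) ^ c) ^ N = 1) : c = 0 := by
  have hδv0 : V.valuation δ ≠ 0 := (Valuation.ne_zero_iff _).2 hδ0
  have hνlt : V.valuation (δ ^ h * y) < 1 := by
    rw [map_mul, map_pow]
    exact (mul_le_of_le_one_right' hy).trans_lt (pow_lt_one₀ zero_le hδ hh.ne')
  have h1 : V.valuation (1 + δ ^ h * y) = 1 := Pool.Agent.U854.OP.val_one_add V hνlt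
  by_cases ho0 : o = 0
  · have hy1 := ho.resolve_left (fun h => h ho0)
    by_contra hc
    rw [ho0, zpow_zero, one_mul] at hrel
    have hνx : V.valuation (δ ^ h * y) = V.valuation (δ ^ h) := by rw [map_mul, hy1, mul_one]
    have hroot : (1 + δ ^ h * y) ^ (c.natAbs * N) = 1 := by
      rcases Int.natAbs_eq c with h2 | h2
      · rw [h2, zpow_natCast, ← pow_mul] at hrel
        exact hrel
      · rw [h2, zpow_neg, zpow_natCast, inv_pow, ← pow_mul] at hrel
        exact inv_eq_one.1 hrel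
    have h3 := Pool.Agent.U854.CQ.root_eq_one hp hpV
      (Nat.mul_pos (Int.natAbs_pos.2 hc) hN) hroot (by
        rw [add_sub_cancel_left, hνx]
        exact hν)
    have h4 : δ ^ h * y = 0 := by linear_combination h3
    rw [h4, map_zero] at hνx
    exact (Valuation.ne_zero_iff _).2 (pow_ne_zero _ hδ0) hνx.symm
  · by_contra hc
    have h2 := congrArg V.valuation hrel
    rw [map_pow, map_zpow₀, map_mul, map_zpow₀, h1, mul_one, map_one, ← zpow_mul] at h2
    have h3 : V.valuation δ ^ (o * c * N) = 1 := by rw [zpow_mul, zpow_natCast]; exact h2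
    have h4 : o * c * N ≠ 0 := mul_ne_zero (mul_ne_zero ho0 hc) (by exact_mod_cast hN.ne')
    rcases lt_or_gt_of_ne h4 with h5 | h5
    · have h6 : V.valuation δ ^ (-(o * c * N)) = 1 := by rw [zpow_neg, h3, inv_one]
      exact absurd h6 (zpow_lt_one₀ (zero_lt_iff.2 hδv0) hδ (by linarith)).ne
    · exact absurd h3 (zpow_lt_one₀ (zero_lt_iff.2 hδv0) hδ h5).ne

theorem tor_two (hp : p.Prime) (hpV : V.valuation (p : ℂ) < 1) {δ : ℂ} (hδ0 : δ ≠ 0)
    (hδ : V.valuation δ < 1) {h : ℕ} (hν : V.valuation (δ ^ h) ^ (p - 1) < V.valuation (p : ℂ))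
    {y y' : ℂ} (hy : V.valuation y ≤ 1) (hy' : V.valuation y' ≤ 1) {o o' : ℤ} (hh : 0 < h)
    (hlin : V.valuation (((o' / Int.gcd o o' : ℤ) : ℂ) * y - ((o / Int.gcd o o' : ℤ) : ℂ) * y') = 1)
    {c d : ℤ} {N : ℕ} (hN : 0 < N)
    (hrel : ((δ ^ o * (1 + δ ^ h * y)) ^ c * (δ ^ o' * (1 + δ ^ h * y')) ^ d) ^ N = 1) :
    c = 0 ∧ d = 0 := by
  have hδv0 : V.valuation δ ≠ 0 := (Valuation.ne_zero_iff _).2 hδ0
  have hνlt1 : V.valuation (δ ^ h) < 1 := by
    rw [map_pow]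
    exact pow_lt_one₀ zero_le hδ hh.ne'
  have hsm : ∀ {z : ℂ}, V.valuation z ≤ 1 → V.valuation (δ ^ h * z) ≤ V.valuation (δ ^ h) := by
    intro z hz
    rw [map_mul]
    exact mul_le_of_le_one_right' hz
  have h1 : ∀ {z : ℂ}, V.valuation z ≤ 1 → V.valuation (1 + δ ^ h * z) = 1 := fun hz =>
    Pool.Agent.U854.OP.val_one_add V ((hsm hz).trans_lt hνlt1)
  have hne : ∀ {z : ℂ}, V.valuation z ≤ 1 → 1 + δ ^ h * z ≠ 0 := by
    intro z hz h2
    have h3 := h1 hz
    rw [h2, map_zero] at h3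
    exact zero_ne_one h3
  -- absolute values
  have hval : o * c + o' * d = 0 := by
    by_contra hne0
    have h2 := congrArg V.valuation hrel
    rw [map_pow, map_mul, map_zpow₀, map_zpow₀, map_mul, map_mul, map_zpow₀, map_zpow₀, h1 hy,
      h1 hy', mul_one, mul_one, map_one, ← zpow_mul, ← zpow_mul, ← zpow_add₀ hδv0,
      ← zpow_natCast, ← zpow_mul] at h2
    have h4 : (o * c + o' * d) * N ≠ 0 := mul_ne_zero hne0 (by exact_mod_cast hN.ne')
    rcases lt_or_gt_of_ne h4 with h5 | h5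
    · have h6 : V.valuation δ ^ (-((o * c + o' * d) * N)) = 1 := by rw [zpow_neg, h2, inv_one]
      exact absurd h6 (zpow_lt_one₀ (zero_lt_iff.2 hδv0) hδ (by linarith)).ne
    · exact absurd h2 (zpow_lt_one₀ (zero_lt_iff.2 hδv0) hδ h5).ne
  have hg : Int.gcd o o' ≠ 0 := by
    intro hg
    rw [hg] at hlin
    simp at hlin
  obtain ⟨g, hgdef⟩ : ∃ g : ℤ, g = (Int.gcd o o' : ℤ) := ⟨_, rfl⟩
  have hg0 : g ≠ 0 := by rw [hgdef]; exact_mod_cast hg
  obtain ⟨q, hq⟩ : ∃ q : ℤ, q = o / g := ⟨_, rfl⟩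
  obtain ⟨q', hq'⟩ : ∃ q' : ℤ, q' = o' / g := ⟨_, rfl⟩
  rw [← hgdef, ← hq, ← hq'] at hlin
  have ho : o = g * q := by rw [hq, hgdef, Int.mul_ediv_cancel' (Int.gcd_dvd_left ..)]
  have ho' : o' = g * q' := by rw [hq', hgdef, Int.mul_ediv_cancel' (Int.gcd_dvd_right ..)]
  have hcop : IsCoprime q q' := by
    rw [hq, hq', hgdef, Int.isCoprime_iff_gcd_eq_one]
    exact Int.gcd_div_gcd_div_gcd (Nat.pos_of_ne_zero hg)
  have hqc : q * c + q' * d = 0 := by
    have : g * (q * c + q' * d) = 0 := by rw [← hval, ho, ho']; ring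
    exact (mul_eq_zero.1 this).resolve_left hg0
  obtain ⟨α, β, hαβ⟩ := hcop
  -- the common factor
  obtain ⟨t, ht⟩ : ∃ t : ℤ, t = β * c - α * d := ⟨_, rfl⟩
  have hc : c = q' * t := by
    rw [ht]
    linear_combination (-c) * hαβ + α * hqc
  have hd : d = -q * t := by
    rw [ht]
    linear_combination (-d) * hαβ + β * hqc
  by_cases ht0 : t = 0
  · rw [hc, hd, ht0, mul_zero, mul_zero]
    exact ⟨rfl, rfl⟩
  exfalso
  obtain ⟨w, hw⟩ : ∃ w : ℂ, w = (1 + δ ^ h * y) ^ q' * (1 + δ ^ h * y') ^ (-q) := ⟨_, rfl⟩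
  have hrel2 : (w ^ t) ^ N = 1 := by
    rw [← hrel]
    congr 1
    rw [hw, mul_zpow, ← zpow_mul, ← zpow_mul, ← hc, ← hd, mul_zpow, mul_zpow, ← zpow_mul,
      ← zpow_mul]
    have e1 : δ ^ (o * c) * δ ^ (o' * d) = 1 := by
      rw [← zpow_add₀ hδ0, hval, zpow_zero]
    linear_combination (-(1 + δ ^ h * y) ^ c * (1 + δ ^ h * y') ^ d) * e1
  have hroot : w ^ (t.natAbs * N) = 1 := by
    rcases Int.natAbs_eq t with h2 | h2
    · rw [h2, zpow_natCast, ← pow_mul] at hrel2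
      exact hrel2
    · rw [h2, zpow_neg, zpow_natCast, inv_pow, ← pow_mul] at hrel2
      exact inv_eq_one.1 hrel2
  -- the terms of first order
  set R := V.valuation (δ ^ h) with hR
  have hRpos : 0 < R := zero_lt_iff.2 ((Valuation.ne_zero_iff _).2 (pow_ne_zero _ hδ0))
  have hint : ∀ m : ℤ, V.valuation ((m : ℤ) : ℂ) ≤ 1 := fun m =>
    (V.valuation_le_one_iff _).2 (intCast_mem V m)
  have hzx : ∀ {z : ℂ}, V.valuation z ≤ 1 → ∀ m : ℤ,
      V.valuation ((1 + δ ^ h * z) ^ m - 1 - m * (δ ^ h * z)) < R := by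
    intro z hz m
    refine Pool.Agent.U854.CL.zpow_first V hp hpV ?_ m hRpos ?_
    · exact lt_of_le_of_lt (pow_le_pow_left₀ zero_le (hsm hz) _) hν
    · rw [map_mul]
      exact (mul_le_of_le_one_left' (hint m)).trans (hsm hz)
  have hzm : ∀ {z : ℂ}, V.valuation z ≤ 1 → ∀ m : ℤ,
      V.valuation ((1 + δ ^ h * z) ^ m - 1) ≤ R := by
    intro z hz m
    have e1 : (1 + δ ^ h * z) ^ m - 1 = ((1 + δ ^ h * z) ^ m - 1 - m * (δ ^ h * z)) +
        m * (δ ^ h * z) := by ring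
    rw [e1]
    refine Valuation.map_add_le _ (hzx hz m).le ?_
    rw [map_mul]
    exact (mul_le_of_le_one_left' (hint m)).trans (hsm hz)
  have hw1 : V.valuation (w - 1) = R := by
    obtain ⟨A, hA⟩ : ∃ A, A = (1 + δ ^ h * y) ^ q' := ⟨_, rfl⟩
    obtain ⟨B, hB⟩ : ∃ B, B = (1 + δ ^ h * y') ^ (-q) := ⟨_, rfl⟩
    have a1 := hzx hy q'
    have b1 := hzx hy' (-q)
    have a2 := hzm hy q'
    have b2 := hzm hy' (-q)
    rw [← hA] at a1 a2
    rw [← hB] at b1 b2
    have e1 : w - 1 = δ ^ h * ((q' : ℂ) * y - (q : ℂ) * y') +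
        ((A - 1 - q' * (δ ^ h * y)) + (B - 1 - ((-q : ℤ) : ℂ) * (δ ^ h * y')) +
          (A - 1) * (B - 1)) := by
      rw [hw, ← hA, ← hB]
      push_cast
      ring
    have h2 : V.valuation (δ ^ h * ((q' : ℂ) * y - (q : ℂ) * y')) = R := by
      rw [map_mul, hlin, mul_one]
    have h3 : V.valuation ((A - 1 - q' * (δ ^ h * y)) +
        (B - 1 - ((-q : ℤ) : ℂ) * (δ ^ h * y')) + (A - 1) * (B - 1)) < R := by
      refine Valuation.map_add_lt _ (Valuation.map_add_lt _ a1 b1) ?_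
      rw [map_mul]
      calc V.valuation (A - 1) * V.valuation (B - 1) ≤ R * R := mul_le_mul' a2 b2
        _ < R := by
          calc R * R < R * 1 := by
                exact mul_lt_mul_of_pos_left hνlt1 hRpos
            _ = R := mul_one R
    rw [e1, Valuation.map_add_eq_of_lt_left _ (by rw [h2]; exact h3), h2]
  have h3 := Pool.Agent.U854.CQ.root_eq_one hp hpV (Nat.mul_pos (Int.natAbs_pos.2 ht0) hN) hroot
    (by rw [hw1]; exact hν)
  rw [h3, sub_self, map_zero] at hw1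
  exact hRpos.ne hw1

end Pool.Agent.U854.DM
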